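import Pool.Agent.H61.AR.Targets

set_option autoImplicit false

open Set Function MeasureTheory Filter Topology
open scoped Manifold ContDiff Matrix

namespace Pool.Agent.H40.AR

open Pool.Agent.H61.AR Pool.Agent.H60.CM

theorem pf_AL2 : T_AL2 := by
  intro X0 X1 n n0 n1 H hF
  have hu := hF.unit
  have h0 := hF.nx0
  have h1 := hF.nx1
  have hc := hF.cmc
  have himm := hF.imm
  simp only [dotProduct, Fin.sum_univ_three] at hu h0 h1
  have c0 := congrFun hc 0
  have c1 := congrFun hc 1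
  have c2 := congrFun hc 2
  simp only [crossProduct, LinearMap.mk₂_apply, Pi.add_apply, Pi.smul_apply, smul_eq_mul,
    Matrix.cons_val_zero, Matrix.cons_val_one, Matrix.cons_val, Fin.isValue] at c0 c1 c2
  set J : ℝ := (X0 ⨯₃ X1) ⬝ᵥ n with hJ
  have hJ' : J = (X0 1 * X1 2 - X0 2 * X1 1) * n 0 + (X0 2 * X1 0 - X0 0 * X1 2) * n 1 +
      (X0 0 * X1 1 - X0 1 * X1 0) * n 2 := by
    rw [hJ]
    simp only [crossProduct, LinearMap.mk₂_apply, dotProduct, Fin.sum_univ_three,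
      Matrix.cons_val_zero, Matrix.cons_val_one, Matrix.cons_val, Fin.isValue]
  have k0 : X0 1 * X1 2 - X0 2 * X1 1 = J * n 0 := by
    rw [hJ']
    linear_combination (-(X0 1 * X1 2 - X0 2 * X1 1)) * hu +
      (n 1 * X1 2 - n 2 * X1 1) * h0 - (n 1 * X0 2 - n 2 * X0 1) * h1
  have k1 : X0 2 * X1 0 - X0 0 * X1 2 = J * n 1 := by
    rw [hJ']
    linear_combination (-(X0 2 * X1 0 - X0 0 * X1 2)) * hu +
      (n 2 * X1 0 - n 0 * X1 2) * h0 - (n 2 * X0 0 - n 0 * X0 2) * h1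
  have k2 : X0 0 * X1 1 - X0 1 * X1 0 = J * n 2 := by
    rw [hJ']
    linear_combination (-(X0 0 * X1 1 - X0 1 * X1 0)) * hu +
      (n 0 * X1 1 - n 1 * X1 0) * h0 - (n 0 * X0 1 - n 1 * X0 0) * h1
  have hJ0 : J ≠ 0 := by
    intro hz
    apply himm
    ext i
    fin_cases i
    · simp [crossProduct, k0, hz]
    · simp [crossProduct, k1, hz]
    · simp [crossProduct, k2, hz]
  have hb : ∀ f0 f1 g0 g1 : ℝ, brk X0 X1 n f0 f1 g0 g1 = (f0 * g1 - f1 * g0) / J := by
    intro f0 f1 g0 g1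
    rfl
  refine ⟨?_, ?_⟩
  · simp only [Fin.sum_univ_three, hb]
    rw [← add_div, ← add_div, div_eq_iff hJ0]
    simp only [crossProduct, LinearMap.mk₂_apply, e3, Matrix.cons_val_zero,
      Matrix.cons_val_one, Matrix.cons_val, Fin.isValue]
    linear_combination (-1 : ℝ) * c2 + (2 * H) * k2
  · rw [hb, div_eq_iff hJ0]
    linear_combination k2

end Pool.Agent.H40.AR
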